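import Mathlib

namespace Pool.Agent.Results.MP_80cf42_co.Bounded

open Finset

/-- `F` contains an induced copy of the poset `P`. -/
def HasCopy (P : Type) [PartialOrder P] {n : ℕ} (F : Finset (Finset (Fin n))) : Prop :=
  ∃ b : P → Finset (Fin n), Function.Injective b ∧ (∀ p, b p ∈ F) ∧ ∀ p q, p ≤ q ↔ b p ⊆ b q

/-- `F` is induced `P`-saturated in the Boolean lattice on `Fin n`. -/
def Saturated (P : Type) [PartialOrder P] {n : ℕ} (F : Finset (Finset (Fin n))) : Prop :=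
  ¬ HasCopy P F ∧ ∀ G : Finset (Fin n), G ∉ F → HasCopy P (insert G F)

theorem HasCopy.mono {P : Type} [PartialOrder P] {n : ℕ} {F F' : Finset (Finset (Fin n))}
    (h : HasCopy P F) (hs : F ⊆ F') : HasCopy P F' := by
  obtain ⟨b, h1, h2, h3⟩ := h
  exact ⟨b, h1, fun p => hs (h2 p), h3⟩

theorem hasCopy_of {P : Type} [PartialOrder P] {n : ℕ} {F : Finset (Finset (Fin n))}
    (b : P → Finset (Fin n)) (h2 : ∀ p, b p ∈ F) (h3 : ∀ p q, p ≤ q ↔ b p ⊆ b q) :
    HasCopy P F := by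
  refine ⟨b, fun p q h => le_antisymm ?_ ?_, h2, h3⟩
  · exact (h3 p q).2 (h ▸ Subset.refl _)
  · exact (h3 q p).2 (h ▸ Subset.refl _)

theorem exists_sat (P : Type) [PartialOrder P] {n : ℕ} (F0 : Finset (Finset (Fin n)))
    (h : ¬ HasCopy P F0) : ∃ F, F0 ⊆ F ∧ Saturated P F := by
  classical
  obtain ⟨F, hF, hmax⟩ := Finset.exists_max_image
    (univ.filter fun F : Finset (Finset (Fin n)) => F0 ⊆ F ∧ ¬ HasCopy P F) Finset.card
    ⟨F0, by simp [h]⟩
  simp only [mem_filter, mem_univ, true_and] at hF hmax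
  refine ⟨F, hF.1, hF.2, fun G hG => ?_⟩
  by_contra hc
  have := hmax (insert G F) ⟨hF.1.trans (subset_insert _ _), hc⟩
  rw [card_insert_of_notMem hG] at this
  omega

/-- the subset of `Fin n` cut out by a predicate on naturals -/
noncomputable def mk (n : ℕ) (p : ℕ → Prop) : Finset (Fin n) := by
  classical exact univ.filter fun y => p y.val

theorem mem_mk {n : ℕ} {p : ℕ → Prop} {y : Fin n} : y ∈ mk n p ↔ p y.val := by
  unfold mk; simp

theorem mk_sub {n : ℕ} {p q : ℕ → Prop} : mk n p ⊆ mk n q ↔ ∀ y, y < n → p y → q y := by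
  constructor
  · intro h y hy hp
    exact mem_mk.1 (h (mem_mk.2 (show p (⟨y, hy⟩ : Fin n).val from hp)))
  · intro h y hy
    exact mem_mk.2 (h _ y.2 (mem_mk.1 hy))

theorem sigma_le {m : ℕ} {i : Fin m → ℕ} (p q : Σ j : Fin m, Fin (i j)) :
    p ≤ q ↔ p.1 = q.1 ∧ p.2.val ≤ q.2.val := by
  obtain ⟨j, a⟩ := p
  obtain ⟨j', b⟩ := q
  constructor
  · intro h
    obtain ⟨h1, h2⟩ := Sigma.le_def.1 h
    simp only at h1
    subst h1
    exact ⟨rfl, h2⟩
  · rintro ⟨h1, h2⟩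
    simp only at h1 h2
    subst h1
    exact Sigma.mk_le_mk_iff.2 h2

noncomputable def Ns (n r : ℕ) (ε : Bool) (S : Finset ℕ) : Finset (Fin n) :=
  mk n fun y => y ∈ S ∨ (ε = true ∧ r ≤ y)

def Cmp (n r : ℕ) (H : Finset (Fin n)) (v : ℕ) : Prop :=
  ∃ S : Finset ℕ, ∃ ε : Bool, S ⊆ range r ∧ H = Ns n r ε S ∧ S.card + ε.toNat = v

theorem ns_sub {n r : ℕ} (hn : r < n) {S S' : Finset ℕ} {ε ε' : Bool} (hS : S ⊆ range r)
    (hS' : S' ⊆ range r) (h : Ns n r ε S ⊆ Ns n r ε' S') : S ⊆ S' ∧ (ε = true → ε' = true) := by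
  rw [Ns, Ns, mk_sub] at h
  constructor
  · intro y hy
    have := mem_range.1 (hS hy)
    rcases h y (by omega) (Or.inl hy) with h1 | h1
    · exact h1
    · omega
  · intro he
    rcases h r hn (Or.inr ⟨he, le_rfl⟩) with h1 | h1
    · have := mem_range.1 (hS' h1); omega
    · exact h1.1

theorem cmp_le {n r : ℕ} (hn : r < n) {H H' : Finset (Fin n)} {v v' : ℕ}
    (h : Cmp n r H v) (h' : Cmp n r H' v') (hs : H ⊆ H') : v ≤ v' := by
  obtain ⟨S, ε, hS, rfl, rfl⟩ := h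
  obtain ⟨S', ε', hS', rfl, rfl⟩ := h'
  obtain ⟨h1, h2⟩ := ns_sub hn hS hS' hs
  have := card_le_card h1
  cases ε <;> cases ε' <;> simp_all <;> omega

theorem cmp_lt {n r : ℕ} (hn : r < n) {H H' : Finset (Fin n)} {v v' : ℕ}
    (h : Cmp n r H v) (h' : Cmp n r H' v') (hs : H ⊆ H') (hne : H ≠ H') : v < v' := by
  obtain ⟨S, ε, hS, rfl, rfl⟩ := h
  obtain ⟨S', ε', hS', rfl, rfl⟩ := h'
  obtain ⟨h1, h2⟩ := ns_sub hn hS hS' hs
  have h3 := card_le_card h1
  by_cases he : ε = ε'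
  · subst he
    have : S.card < S'.card := by
      refine card_lt_card ⟨h1, fun h => hne ?_⟩
      rw [Subset.antisymm h1 h]
    omega
  · cases ε <;> cases ε' <;> simp_all <;> omega

theorem exists_enum (A B : Finset ℕ) (hAB : A ⊆ B) :
    ∃ e : ℕ → ℕ, (∀ t t', t < B.card → t' < B.card → e t = e t' → t = t') ∧
      (∀ t, t < B.card → e t ∈ B) ∧ (∀ t, t < A.card → e t ∈ A) ∧
      (∀ y ∈ A, ∃ t, t < A.card ∧ e t = y) := by
  classical
  have hc : (B \ A).card = B.card - A.card := card_sdiff_of_subset hAB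
  have hle := card_le_card hAB
  let e : ℕ → ℕ := fun t => if h : t < A.card then (A.equivFin.symm ⟨t, h⟩ : ℕ) else
    if h' : t - A.card < (B \ A).card then ((B \ A).equivFin.symm ⟨t - A.card, h'⟩ : ℕ) else 0
  have e1 : ∀ t (h : t < A.card), e t = (A.equivFin.symm ⟨t, h⟩ : ℕ) := fun t h => by
    simp [e, h]
  have e2 : ∀ t (h : ¬ t < A.card) (h' : t - A.card < (B \ A).card),
      e t = ((B \ A).equivFin.symm ⟨t - A.card, h'⟩ : ℕ) := fun t h h' => by
    simp only [e, h, h', dif_neg, dif_pos, not_false_eq_true]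
  have m1 : ∀ t, t < A.card → e t ∈ A := fun t h => by rw [e1 t h]; exact Subtype.property _
  have m2 : ∀ t, ¬ t < A.card → t < B.card → e t ∈ B \ A := fun t h h' => by
    rw [e2 t h (by omega)]; exact Subtype.property _
  refine ⟨e, ?_, ?_, m1, ?_⟩
  · intro t t' ht ht' h
    by_cases h1 : t < A.card <;> by_cases h2 : t' < A.card
    · rw [e1 t h1, e1 t' h2] at h
      have := A.equivFin.symm.injective (Subtype.ext h)
      simpa using this
    · exact absurd (h ▸ m1 t h1) (mem_sdiff.1 (m2 t' h2 ht')).2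
    · exact absurd (h ▸ m1 t' h2) (mem_sdiff.1 (m2 t h1 ht)).2
    · rw [e2 t h1 (by omega), e2 t' h2 (by omega)] at h
      have := (B \ A).equivFin.symm.injective (Subtype.ext h)
      simp only [Fin.mk.injEq] at this
      omega
  · intro t ht
    by_cases h1 : t < A.card
    · exact hAB (m1 t h1)
    · exact (mem_sdiff.1 (m2 t h1 ht)).1
  · intro y hy
    refine ⟨(A.equivFin ⟨y, hy⟩).val, (A.equivFin ⟨y, hy⟩).2, ?_⟩
    rw [e1 _ (A.equivFin ⟨y, hy⟩).2]
    simp

/-- the seed family -/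
noncomputable def F0 (n r α k : ℕ) (J : Finset ℕ) : Finset (Finset (Fin n)) := by
  classical exact univ.filter fun H => (∃ l, l + 1 < k ∧ Cmp n r H (α + l)) ∨
    (∃ t ∈ J, H = mk n (fun y => y ≠ t) ∨ H = Ns n r false (J.erase t)) ∨ H = Ns n r false J

theorem mem_F0 {n r α k : ℕ} {J : Finset ℕ} {H : Finset (Fin n)} : H ∈ F0 n r α k J ↔
    (∃ l, l + 1 < k ∧ Cmp n r H (α + l)) ∨
    (∃ t ∈ J, H = mk n (fun y => y ≠ t) ∨ H = Ns n r false (J.erase t)) ∨
      H = Ns n r false J := by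
  unfold F0; simp only [mem_filter, mem_univ, true_and]

theorem F0_free {n r α m k : ℕ} (hn : r < n) (J : Finset ℕ) (i : Fin m → ℕ)
    (M : Finset (Fin m)) (hM : ∀ j ∈ M, i j = k) (hk : 1 ≤ k) (hJ : J.card < M.card) (j0 : Fin m)
    (hj0 : j0 ∉ M) (hi0 : 1 ≤ i j0) :
    ¬ HasCopy (Σ j : Fin m, Fin (i j)) (F0 n r α k J) := by
  classical
  rintro ⟨b, hinj, hmem, hle⟩
  set X := b ⟨j0, ⟨0, hi0⟩⟩ with hX
  have hcross : ∀ (j j' : Fin m) a a', b ⟨j, a⟩ ⊆ b ⟨j', a'⟩ → j = j' := fun j j' a a' h =>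
    ((sigma_le _ _).1 ((hle _ _).2 h)).1
  have h1 : ∀ j : Fin m, ∃ t : ℕ, j ∈ M → ∃ a : Fin (i j), t ∈ J ∧
      ((b ⟨j, a⟩ = mk n (fun y => y ≠ t) ∧ ∃ h : t < n, (⟨t, h⟩ : Fin n) ∈ X) ∨
        b ⟨j, a⟩ = Ns n r false (J.erase t) ∨
        (b ⟨j, a⟩ = Ns n r false J ∧ ∀ h : t < n, (⟨t, h⟩ : Fin n) ∉ X)) := by
    intro j
    by_cases hj : j ∈ M
    swap
    · exact ⟨0, fun h => absurd h hj⟩
    have hjj : j ≠ j0 := fun h => hj0 (h ▸ hj)
    have h0 : ∃ a : Fin (i j), ¬ ∃ l, l + 1 < k ∧ Cmp n r (b ⟨j, a⟩) (α + l) := by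
      by_contra hc
      push Not at hc
      choose v hv1 hv2 using hc
      have hsm : StrictMono v := by
        intro a a' haa
        have := cmp_lt hn (hv2 a) (hv2 a') ((hle _ _).1 (Sigma.mk_le_mk_iff.2 haa.le)) (by
          intro h
          have := hinj h
          simp only [Sigma.mk.injEq, heq_eq_eq, true_and] at this
          exact haa.ne this)
        omega
      have h3 : (univ : Finset (Fin (i j))).card ≤ (range (k - 1)).card := by
        refine card_le_card_of_injOn v (fun a _ => ?_) (hsm.injective.injOn)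
        have := hv1 a
        simp only [coe_range, Set.mem_Iio]
        omega
      simp only [card_univ, Fintype.card_fin, card_range] at h3
      have := hM j hj
      omega
    obtain ⟨a, ha⟩ := h0
    rcases mem_F0.1 (hmem ⟨j, a⟩) with h | ⟨t, ht, h | h⟩ | h
    · exact absurd h ha
    · refine ⟨t, fun _ => ⟨a, ht, Or.inl ⟨h, ?_⟩⟩⟩
      by_contra hc
      refine hjj (hcross j0 j ⟨0, hi0⟩ a ?_).symm
      rw [h]
      intro y hy
      refine mem_mk.2 fun h1 => hc ?_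
      subst h1
      exact ⟨y.2, hy⟩
    · exact ⟨t, fun _ => ⟨a, ht, Or.inr (Or.inl h)⟩⟩
    · have h2 : ∃ t ∈ J, ∀ h : t < n, (⟨t, h⟩ : Fin n) ∉ X := by
        by_contra hc
        push Not at hc
        refine hjj (hcross j j0 a ⟨0, hi0⟩ ?_)
        rw [h]
        intro y hy
        rcases mem_mk.1 hy with h1 | h1
        · obtain ⟨_, h2⟩ := hc _ h1
          exact h2
        · simp at h1
      obtain ⟨t, ht, h2⟩ := h2
      exact ⟨t, fun _ => ⟨a, ht, Or.inr (Or.inr ⟨h, h2⟩)⟩⟩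
  choose t ht using h1
  have s1 : ∀ u, Ns n r false (J.erase u) ⊆ mk n (fun y => y ≠ u) := by
    intro u
    rw [Ns, mk_sub]
    rintro y _ (h | h)
    · exact (mem_erase.1 h).1
    · simp at h
  have s2 : ∀ u, Ns n r false (J.erase u) ⊆ Ns n r false J := by
    intro u
    rw [Ns, Ns, mk_sub]
    rintro y _ (h | h)
    · exact Or.inl (mem_erase.1 h).2
    · exact Or.inr h
  have h3 : M.card ≤ J.card := by
    refine card_le_card_of_injOn t (fun j hj => ?_) (fun j hj j' hj' hjj => ?_)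
    · obtain ⟨a, h, -⟩ := ht j hj
      exact h
    · obtain ⟨a, -, h⟩ := ht j hj
      obtain ⟨a', -, h'⟩ := ht j' hj'
      rw [← hjj] at h'
      rcases h with ⟨h, h1, h2⟩ | h | ⟨h, h1⟩ <;> rcases h' with ⟨h', h1', h2'⟩ | h' | ⟨h', h1'⟩
      · exact hcross j j' a a' (by rw [h, h'])
      · exact (hcross j' j a' a (by rw [h, h']; exact s1 _)).symm
      · exact absurd h2 (h1' h1)
      · exact hcross j j' a a' (by rw [h, h']; exact s1 _)
      · exact hcross j j' a a' (by rw [h, h'])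
      · exact hcross j j' a a' (by rw [h, h']; exact s2 _)
      · exact absurd h2' (h1 h1')
      · exact (hcross j' j a' a (by rw [h, h']; exact s2 _)).symm
      · exact hcross j j' a a' (by rw [h, h'])
  omega

theorem ck_lt {m k c l : ℕ} (hc : c < m) (hl : l < k) : c * k + l < m * k := by
  have : (c + 1) * k ≤ m * k := Nat.mul_le_mul_right _ hc
  nlinarith

theorem ck_lt' {m k c : ℕ} (hc : c < m) (hl : 0 < k) : c * k < m * k := by
  have := ck_lt hc hl
  omega

def In {n : ℕ} (X : Finset (Fin n)) (y : ℕ) : Prop := ∃ h : y < n, (⟨y, h⟩ : Fin n) ∈ X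

theorem in_mk {n : ℕ} {p : ℕ → Prop} {y : ℕ} : In (mk n p) y ↔ y < n ∧ p y :=
  ⟨fun ⟨h, h1⟩ => ⟨h, mem_mk.1 h1⟩, fun ⟨h, h1⟩ => ⟨h, mem_mk.2 h1⟩⟩

theorem sub_iff {n : ℕ} {X X' : Finset (Fin n)} : X ⊆ X' ↔ ∀ y, In X y → In X' y :=
  ⟨fun h _ ⟨h1, h2⟩ => ⟨h1, h h2⟩, fun h y hy => (h y.val ⟨y.2, hy⟩).2⟩

theorem chain_iff {n : ℕ} (f : ℕ → Finset (Fin n)) (L : ℕ)
    (key : ∀ l l', l < l' → l' < L → f l ⊆ f l' ∧ ¬ f l' ⊆ f l) :
    ∀ l l', l < L → l' < L → (l ≤ l' ↔ f l ⊆ f l') := by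
  intro l l' hl hl'
  constructor
  · intro h
    rcases h.eq_or_lt with rfl | h
    · exact Subset.refl _
    · exact (key l l' h hl').1
  · intro h
    by_contra hc
    exact (key l' l (by omega) hl).2 h

def cc (e : ℕ → ℕ) (d β v : ℕ) : Finset ℕ := (range v).image fun t => e (β * d + t)

noncomputable def hh (n m k : ℕ) (e : ℕ → ℕ) (τ : Finset ℕ) (ε : Bool) (β l : ℕ) :
    Finset (Fin n) :=
  Ns n (m + (m + 1) * (m + k)) ε (τ ∪ cc e (m + k) β (m + 2 + l - τ.card - ε.toNat))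

def Big {n : ℕ} (e : ℕ → ℕ) (d β : ℕ) (X : Finset (Fin n)) : Prop := In X (e (β * d))

def Small {n : ℕ} (e : ℕ → ℕ) (d R β : ℕ) (X : Finset (Fin n)) : Prop :=
  ∀ t, t < R → In X (e t) → β * d ≤ t ∧ t < β * d + d

structure En (n m k : ℕ) (e : ℕ → ℕ) : Prop where
  hn : m + (m + 1) * (m + k) < n
  inj : ∀ t t', t < (m + 1) * (m + k) → t' < (m + 1) * (m + k) → e t = e t' → t = t'
  lo : ∀ t, t < (m + 1) * (m + k) → m ≤ e t
  hi : ∀ t, t < (m + 1) * (m + k) → e t < m + (m + 1) * (m + k)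

theorem big_small {n m d : ℕ} {e : ℕ → ℕ} {β β' : ℕ} {X X' : Finset (Fin n)} (hd : 0 < d)
    (hβ : β ≤ m) (h : Big e d β X) (h' : Small e d ((m + 1) * d) β' X') (hne : β ≠ β') :
    ¬ X ⊆ X' := by
  intro hs
  have h1 := ck_lt' (show β < m + 1 by omega) hd
  obtain ⟨h2, h3⟩ := h' (β * d) (by omega) (sub_iff.1 hs _ h)
  rcases lt_or_gt_of_ne hne with h4 | h4
  · have := ck_lt' h4 hd; omega
  · have : (β' + 1) * d ≤ β * d := Nat.mul_le_mul_right _ h4
    have h5 : (β' + 1) * d = β' * d + d := by ring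
    omega

section
variable {n m k : ℕ} {e : ℕ → ℕ} (E : En n m k e) {τ : Finset ℕ} (hτ : τ ⊆ range m)
  {β : ℕ} (hβ : β ≤ m) {l : ℕ} (hl : l + 1 < k) (ε : Bool)
include E hτ hβ hl

theorem in_hh (y : ℕ) : In (hh n m k e τ ε β l) y ↔ y ∈ τ ∨
    (∃ t, t < m + 2 + l - τ.card - ε.toNat ∧ t < m + k ∧ β * (m + k) + t < (m + 1) * (m + k) ∧
      e (β * (m + k) + t) = y) ∨ (ε = true ∧ m + (m + 1) * (m + k) ≤ y ∧ y < n) := by
  have hn := E.hn
  rw [hh, Ns, in_mk, mem_union, cc, mem_image]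
  constructor
  · rintro ⟨h1, (h | ⟨t, ht, h⟩) | h⟩
    · exact Or.inl h
    · have ht' := mem_range.1 ht
      have h2 : t < m + k := by omega
      exact Or.inr (Or.inl ⟨t, ht', h2, ck_lt (by omega) h2, h⟩)
    · exact Or.inr (Or.inr ⟨h.1, h.2, h1⟩)
  · rintro (h | ⟨t, h1, h2, h3, h4⟩ | h)
    · have := mem_range.1 (hτ h)
      exact ⟨by omega, Or.inl (Or.inl h)⟩
    · have := E.hi _ h3
      exact ⟨by omega, Or.inl (Or.inr ⟨t, mem_range.2 h1, h4⟩)⟩
    · exact ⟨h.2.2, Or.inr ⟨h.1, h.2.1⟩⟩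

theorem hh_cmp : Cmp n (m + (m + 1) * (m + k)) (hh n m k e τ ε β l) (m + 2 + l) := by
  have hc := card_le_card hτ
  rw [card_range] at hc
  have hε : ε.toNat ≤ 1 := Bool.toNat_le ε
  have hlt : ∀ t, t < m + 2 + l - τ.card - ε.toNat → β * (m + k) + t < (m + 1) * (m + k) :=
    fun t ht => ck_lt (by omega) (by omega)
  refine ⟨_, ε, ?_, rfl, ?_⟩
  · intro y hy
    rcases mem_union.1 hy with h | h
    · have := mem_range.1 (hτ h); exact mem_range.2 (by omega)
    · obtain ⟨t, ht, rfl⟩ := mem_image.1 h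
      exact mem_range.2 (E.hi _ (hlt t (mem_range.1 ht)))
  · rw [card_union_of_disjoint, cc, card_image_of_injOn, card_range]
    · omega
    · intro t ht t' ht' h
      have := E.inj _ _ (hlt t (mem_range.1 ht)) (hlt t' (mem_range.1 ht')) h
      omega
    · rw [disjoint_left]
      intro y hy h
      obtain ⟨t, ht, rfl⟩ := mem_image.1 h
      have h1 := E.lo _ (hlt t (mem_range.1 ht))
      have h2 := mem_range.1 (hτ hy)
      omega

theorem hh_low (y : ℕ) (hy : y < m) : In (hh n m k e τ ε β l) y ↔ y ∈ τ := by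
  rw [in_hh E hτ hβ hl]
  constructor
  · rintro (h | ⟨t, -, -, h3, h4⟩ | h)
    · exact h
    · have := E.lo _ h3; omega
    · omega
  · exact Or.inl

theorem hh_z (y : ℕ) (hy : m + (m + 1) * (m + k) ≤ y) (hyn : y < n) :
    In (hh n m k e τ ε β l) y ↔ ε = true := by
  rw [in_hh E hτ hβ hl]
  constructor
  · rintro (h | ⟨t, -, -, h3, h4⟩ | h)
    · have := mem_range.1 (hτ h); omega
    · have := E.hi _ h3; omega
    · exact h.1
  · exact fun h => Or.inr (Or.inr ⟨h, hy, hyn⟩)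

theorem hh_big : Big e (m + k) β (hh n m k e τ ε β l) := by
  have hc := card_le_card hτ
  rw [card_range] at hc
  have hε : ε.toNat ≤ 1 := Bool.toNat_le ε
  rw [Big, in_hh E hτ hβ hl]
  exact Or.inr (Or.inl ⟨0, by omega, by omega, ck_lt (by omega) (by omega), rfl⟩)

theorem hh_small : Small e (m + k) ((m + 1) * (m + k)) β (hh n m k e τ ε β l) := by
  intro t ht h
  rw [in_hh E hτ hβ hl] at h
  rcases h with h | ⟨t', -, h2, h3, h4⟩ | h
  · have h1 := mem_range.1 (hτ h); have := E.lo t ht; omega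
  · have := E.inj _ _ h3 ht h4; omega
  · have := E.hi t ht; omega

theorem hh_lt {l0 : ℕ} (h0 : l0 < l) : hh n m k e τ ε β l0 ⊆ hh n m k e τ ε β l ∧
    ¬ hh n m k e τ ε β l ⊆ hh n m k e τ ε β l0 := by
  have hl0 : l0 + 1 < k := by omega
  constructor
  · rw [sub_iff]
    intro y
    rw [in_hh E hτ hβ hl, in_hh E hτ hβ hl0]
    rintro (h | ⟨t, h1, h2⟩ | h)
    · exact Or.inl h
    · exact Or.inr (Or.inl ⟨t, by omega, h2⟩)
    · exact Or.inr (Or.inr h)
  · intro h
    have := cmp_le E.hn (hh_cmp E hτ hβ hl ε) (hh_cmp E hτ hβ hl0 ε) h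
    omega

end

theorem G_chain {n m k : ℕ} (hk : 2 ≤ k) (hn : m + (m + 1) * (m + k) < n) (G : Finset (Fin n))
    {z1 z2 : ℕ} (h1 : m + (m + 1) * (m + k) ≤ z1) (h1G : In G z1)
    (h2 : m + (m + 1) * (m + k) ≤ z2) (h2n : z2 < n) (h2G : ¬ In G z2)
    (I : Finset ℕ) (hI : I ⊆ range m) (hIG : ∀ y, y < m → (In G y ↔ y ∈ I)) :
    ∃ e : ℕ → ℕ, En n m k e ∧ ∃ ε : Bool, (ε = true → Big e (m + k) 0 G) ∧
      (ε = false → Small e (m + k) ((m + 1) * (m + k)) 0 G) ∧
      ∃ f : ℕ → Finset (Fin n), (∀ l l', l < k → l' < k → (l ≤ l' ↔ f l ⊆ f l')) ∧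
        ∀ l, l < k → f l = G ∨ ∃ ε' l', l' + 1 < k ∧ f l = hh n m k e I ε' 0 l' := by
  classical
  set R := (m + 1) * (m + k) with hR
  set A : Finset ℕ := (Ico m (m + R)).filter fun y => In G y with hA
  obtain ⟨e, e1, e2, e3, e4⟩ := exists_enum A (Ico m (m + R)) (filter_subset _ _)
  rw [Nat.card_Ico, Nat.add_sub_cancel_left] at e1 e2
  have E : En n m k e := ⟨hn, e1, fun t ht => (mem_Ico.1 (e2 t ht)).1,
    fun t ht => (mem_Ico.1 (e2 t ht)).2⟩
  have hc := card_le_card hI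
  rw [card_range] at hc
  set g := min (k - 1) (I.card + A.card + 1 - (m + 2)) with hg
  have hLG : ∀ l, l < g → hh n m k e I false 0 l ⊆ G := by
    intro l hl
    rw [sub_iff]
    intro y hy
    rw [in_hh E hI (Nat.zero_le m) (by omega)] at hy
    rcases hy with h | ⟨t, h1, -, -, h4⟩ | h
    · exact (hIG y (mem_range.1 (hI h))).2 h
    · simp only [Bool.toNat_false, zero_mul, zero_add] at h1 h4
      have := e3 t (by omega)
      rw [h4] at this
      exact (mem_filter.1 this).2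
    · simp at h
  have hGU : ∀ l, g < l → l < k → G ⊆ hh n m k e I true 0 (l - 1) := by
    intro l hl hlk
    rw [sub_iff]
    intro y hy
    rw [in_hh E hI (Nat.zero_le m) (by omega)]
    by_cases h : y < m
    · exact Or.inl ((hIG y h).1 hy)
    by_cases h' : y < m + R
    · obtain ⟨t, ht, rfl⟩ := e4 y (mem_filter.2 ⟨mem_Ico.2 ⟨by omega, h'⟩, hy⟩)
      have h3 : t < m + k := by omega
      refine Or.inr (Or.inl ⟨t, ?_, h3, ck_lt (by omega) h3, by simp⟩)
      simp only [Bool.toNat_true]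
      omega
    · exact Or.inr (Or.inr ⟨rfl, by omega, hy.1⟩)
  have hGL : ∀ l, l + 1 < k → ¬ G ⊆ hh n m k e I false 0 l := by
    intro l hl h
    have := (hh_z E hI (Nat.zero_le m) hl false z1 h1 h1G.1).1 (sub_iff.1 h _ h1G)
    simp at this
  have hUG : ∀ l, l + 1 < k → ¬ hh n m k e I true 0 l ⊆ G := by
    intro l hl h
    exact h2G (sub_iff.1 h _ ((hh_z E hI (Nat.zero_le m) hl true z2 h2 h2n).2 rfl))
  let f : ℕ → Finset (Fin n) := fun l =>
    if l < g then hh n m k e I false 0 l else if l = g then G else hh n m k e I true 0 (l - 1)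
  have f1 : ∀ l, l < g → f l = hh n m k e I false 0 l := fun l hl => by simp [f, hl]
  have f2 : f g = G := by simp [f]
  have f3 : ∀ l, g < l → f l = hh n m k e I true 0 (l - 1) := fun l hl => by
    simp [f, show ¬ l < g by omega, show l ≠ g by omega]
  refine ⟨e, E, decide (0 < g), fun h => ?_, fun h => ?_, f, chain_iff f k ?_, ?_⟩
  · have h0 : 0 < g := by simpa using h
    exact sub_iff.1 (hLG 0 h0) _ (hh_big E hI (Nat.zero_le m) (by omega) false)
  · have h0 : g = 0 := by simpa using h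
    intro t ht hG
    exact hh_small E hI (Nat.zero_le m) (l := 1 - 1) (by omega) true t ht
      (sub_iff.1 (hGU 1 (by omega) (by omega)) _ hG)
  · intro l l' hll hl'
    rcases lt_trichotomy l g with h | h | h <;> rcases lt_trichotomy l' g with h' | h' | h'
    · rw [f1 l h, f1 l' h']
      exact hh_lt E hI (Nat.zero_le m) (by omega) false hll
    · rw [f1 l h, h', f2]
      exact ⟨hLG l h, hGL l (by omega)⟩
    · rw [f1 l h, f3 l' h']
      exact ⟨(hLG l h).trans (hGU l' h' hl'),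
        fun hc => hGL l (by omega) ((hGU l' h' hl').trans hc)⟩
    · omega
    · omega
    · rw [h, f2, f3 l' h']
      exact ⟨hGU l' h' hl', hUG _ (by omega)⟩
    · omega
    · omega
    · rw [f3 l h, f3 l' h']
      exact hh_lt E hI (Nat.zero_le m) (by omega) true (by omega)
  · intro l hl
    rcases lt_trichotomy l g with h | h | h
    · right; exact ⟨false, l, by omega, f1 l h⟩
    · left; rw [h, f2]
    · right; exact ⟨true, l - 1, by omega, f3 l h⟩

theorem up_chain {n m k : ℕ} {e : ℕ → ℕ} (E : En n m k e) (hk : 2 ≤ k) (J : Finset ℕ) {j : ℕ}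
    (hj : j < m) (hjJ : j ∈ J) : ∃ f : ℕ → Finset (Fin n),
      (∀ l l', l < k → l' < k → (l ≤ l' ↔ f l ⊆ f l')) ∧ ∀ l, l < k →
        f l ∈ F0 n (m + (m + 1) * (m + k)) (m + 2) k J ∧
        (∀ y, y < m → (In (f l) y ↔ y ≠ j)) ∧ Big e (m + k) (j + 1) (f l) ∧
        ∀ z, m + (m + 1) * (m + k) ≤ z → z < n → In (f l) z := by
  have hτ : (range m).erase j ⊆ range m := erase_subset _ _
  have hn := E.hn
  let f : ℕ → Finset (Fin n) := fun l =>
    if l + 1 < k then hh n m k e ((range m).erase j) true (j + 1) l else mk n fun y => y ≠ j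
  have f1 : ∀ l, l + 1 < k → f l = hh n m k e ((range m).erase j) true (j + 1) l :=
    fun l hl => by simp [f, hl]
  have f2 : ∀ l, ¬ l + 1 < k → f l = mk n fun y => y ≠ j := fun l hl => by simp [f, hl]
  have hb : ∀ β, β ≤ m → Big e (m + k) β (mk n fun y => y ≠ j) := by
    intro β hβ
    have h1 := ck_lt' (show β < m + 1 by omega) (show 0 < m + k by omega)
    have h2 := E.lo _ h1
    have h3 := E.hi _ h1
    exact in_mk.2 ⟨by omega, by omega⟩
  refine ⟨f, chain_iff f k ?_, ?_⟩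
  · intro l l' hll hl'
    by_cases h : l' + 1 < k
    · rw [f1 l (by omega), f1 l' h]
      exact hh_lt E hτ hj h true hll
    · rw [f1 l (by omega), f2 l' h]
      refine ⟨sub_iff.2 fun y hy => in_mk.2 ⟨hy.1, fun h3 => ?_⟩, ?_⟩
      · rw [h3, hh_low E hτ hj (by omega) true j hj] at hy
        simp at hy
      · exact big_small (by omega) (Nat.zero_le m) (hb 0 (Nat.zero_le m))
          (hh_small E hτ hj (by omega) true) (by omega)
  · intro l hl
    by_cases h : l + 1 < k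
    · rw [f1 l h]
      refine ⟨mem_F0.2 (Or.inl ⟨l, h, hh_cmp E hτ hj h true⟩), fun y hy => ?_,
        hh_big E hτ hj h true, fun z h1 h2 => (hh_z E hτ hj h true z h1 h2).2 rfl⟩
      rw [hh_low E hτ hj h true y hy]
      simp [hy]
    · rw [f2 l h]
      refine ⟨mem_F0.2 (Or.inr (Or.inl ⟨j, hjJ, Or.inl rfl⟩)), fun y hy => ?_, hb _ hj,
        fun z h1 h2 => in_mk.2 ⟨h2, by omega⟩⟩
      rw [in_mk]
      exact ⟨fun h => h.2, fun h => ⟨by omega, h⟩⟩

theorem low_chain {n m k : ℕ} {e : ℕ → ℕ} (E : En n m k e) (hk : 2 ≤ k) (J D : Finset ℕ) {j : ℕ}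
    (hj : j < m) (hτ : D ⊆ range m)
    (hD : Ns n (m + (m + 1) * (m + k)) false D ∈ F0 n (m + (m + 1) * (m + k)) (m + 2) k J) :
    ∃ f : ℕ → Finset (Fin n),
      (∀ l l', l < k → l' < k → (l ≤ l' ↔ f l ⊆ f l')) ∧ ∀ l, l < k →
        f l ∈ F0 n (m + (m + 1) * (m + k)) (m + 2) k J ∧
        (∀ y, y < m → (In (f l) y ↔ y ∈ D)) ∧
        Small e (m + k) ((m + 1) * (m + k)) (j + 1) (f l) ∧
        ∀ z, m + (m + 1) * (m + k) ≤ z → ¬ In (f l) z := by
  have hn := E.hn
  let f : ℕ → Finset (Fin n) := fun l =>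
    if l = 0 then Ns n (m + (m + 1) * (m + k)) false D else hh n m k e D false (j + 1) (l - 1)
  have f1 : f 0 = Ns n (m + (m + 1) * (m + k)) false D := by simp [f]
  have f2 : ∀ l, l ≠ 0 → f l = hh n m k e D false (j + 1) (l - 1) := fun l hl => by simp [f, hl]
  have hin : ∀ y, In (Ns n (m + (m + 1) * (m + k)) false D) y ↔ y ∈ D := by
    intro y
    rw [Ns, in_mk]
    constructor
    · rintro ⟨_, h | h⟩
      · exact h
      · simp at h
    · intro h
      have := mem_range.1 (hτ h)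
      exact ⟨by omega, Or.inl h⟩
  have hs : ∀ β, Small e (m + k) ((m + 1) * (m + k)) β
      (Ns n (m + (m + 1) * (m + k)) false D) := by
    intro β t ht h
    have h1 := mem_range.1 (hτ ((hin _).1 h))
    have := E.lo t ht
    omega
  refine ⟨f, chain_iff f k ?_, ?_⟩
  · intro l l' hll hl'
    by_cases h : l = 0
    · rw [h, f1, f2 l' (by omega)]
      refine ⟨sub_iff.2 fun y hy => ?_, ?_⟩
      · rw [hin] at hy
        exact (hh_low E hτ hj (by omega) false y (mem_range.1 (hτ hy))).2 hy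
      · exact big_small (by omega) hj (hh_big E hτ hj (by omega) false) (hs 0) (by omega)
    · rw [f2 l h, f2 l' (by omega)]
      exact hh_lt E hτ hj (by omega) false (by omega)
  · intro l hl
    by_cases h : l = 0
    · rw [h, f1]
      refine ⟨hD, fun y _ => hin y, hs _, fun z h1 h2 => ?_⟩
      have := mem_range.1 (hτ ((hin _).1 h2))
      omega
    · have h' : l - 1 + 1 < k := by omega
      rw [f2 l h]
      refine ⟨mem_F0.2 (Or.inl ⟨l - 1, h', hh_cmp E hτ hj h' false⟩),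
        fun y hy => hh_low E hτ hj h' false y hy, hh_small E hτ hj h' false, fun z h1 h2 => ?_⟩
      have := (hh_z E hτ hj h' false z h1 h2.1).1 h2
      simp at this

theorem F0_sat {n m k : ℕ} (hk : 2 ≤ k) (hn : m + (m + 1) * (m + k) < n) (i : Fin m → ℕ)
    (j1 : Fin m) (J : Finset ℕ) (hJ : J ⊆ range m) (hj1 : j1.val ∉ J) (hik : ∀ j, i j ≤ k)
    (hsh : ∀ j : Fin m, j ≠ j1 → j.val ∉ J → i j < k) (G : Finset (Fin n))
    {z1 z2 : ℕ} (h1 : m + (m + 1) * (m + k) ≤ z1) (h1G : In G z1)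
    (h2 : m + (m + 1) * (m + k) ≤ z2) (h2n : z2 < n) (h2G : ¬ In G z2) :
    HasCopy (Σ j : Fin m, Fin (i j)) (insert G (F0 n (m + (m + 1) * (m + k)) (m + 2) k J)) := by
  classical
  set I : Finset ℕ := (range m).filter fun y => In G y with hIdef
  have hI : I ⊆ range m := filter_subset _ _
  have hIG : ∀ y, y < m → (In G y ↔ y ∈ I) := fun y hy => by simp [hIdef, hy]
  obtain ⟨e, E, ε, hε1, hε2, f0, hf0, hf0'⟩ := G_chain hk hn G h1 h1G h2 h2n h2G I hI hIG
  set r := m + (m + 1) * (m + k) with hr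
  set R := (m + 1) * (m + k) with hR
  have hd : 0 < m + k := by omega
  let β : Fin m → ℕ := fun j => if j = j1 then 0 else j.val + 1
  have hβ : ∀ j, β j ≤ m := fun j => by
    have := j.2
    simp only [β]; split_ifs <;> omega
  have hβne : ∀ j j', j ≠ j' → β j ≠ β j' := fun j j' h => by
    have : j.val ≠ j'.val := fun h1 => h (Fin.ext h1)
    simp only [β]
    split_ifs with a b
    · exact absurd (a.trans b.symm) h
    all_goals omega
  have key : ∀ j : Fin m, ∃ f : ℕ → Finset (Fin n),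
      (∀ l l', l < i j → l' < i j → (l ≤ l' ↔ f l ⊆ f l')) ∧ ∀ l, l < i j →
        f l ∈ insert G (F0 n r (m + 2) k J) ∧
        (j.val ∈ J → j.val ∈ I → (∀ y, y < m → (In (f l) y ↔ y ≠ j.val)) ∧
          Big e (m + k) (β j) (f l) ∧ In (f l) z2) ∧
        (j.val ∈ J → j.val ∉ I → (∀ y ∈ J, y ≠ j.val → In (f l) y) ∧
          (∃ y ∈ J, y ∉ I ∧ In (f l) y) ∧ (∀ y ∈ J, y ∉ I → y ≠ j.val → ¬ In (f l) j.val) ∧
          Small e (m + k) R (β j) (f l) ∧ ¬ In (f l) z1 ∧ ¬ In (f l) z2) ∧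
        (j.val ∉ J → (∀ y, y < m → (In (f l) y ↔ y ∈ I)) ∧
          ((j = j1 ∧ f l = G) ∨ (Big e (m + k) (β j) (f l) ∧ Small e (m + k) R (β j) (f l) ∧
            (j ≠ j1 → (ε = true → In (f l) z2) ∧ (ε = false → ¬ In (f l) z1))))) := by
    intro j
    have hjk := hik j
    by_cases hj : j = j1
    · subst hj
      refine ⟨f0, fun l l' hl hl' => hf0 l l' (by omega) (by omega), fun l hl => ?_⟩
      have hb : β j = 0 := by simp [β]
      rcases hf0' l (by omega) with h | ⟨ε', l', hl', h⟩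
      · rw [h]
        exact ⟨mem_insert_self _ _, fun h => absurd h hj1, fun h => absurd h hj1,
          fun _ => ⟨hIG, Or.inl ⟨rfl, rfl⟩⟩⟩
      · rw [h, hb]
        exact ⟨mem_insert_of_mem (mem_F0.2 (Or.inl ⟨l', hl', hh_cmp E hI (Nat.zero_le m) hl' ε'⟩)),
          fun h => absurd h hj1, fun h => absurd h hj1,
          fun _ => ⟨hh_low E hI (Nat.zero_le m) hl' ε', Or.inr
            ⟨hh_big E hI (Nat.zero_le m) hl' ε', hh_small E hI (Nat.zero_le m) hl' ε',
              fun h => absurd rfl h⟩⟩⟩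
    have hb : β j = j.val + 1 := by simp [β, hj]
    rw [hb]
    by_cases hjJ : j.val ∈ J
    · by_cases hjI : j.val ∈ I
      · obtain ⟨f, hf, hf'⟩ := up_chain E hk J j.2 hjJ
        refine ⟨f, fun l l' hl hl' => hf l l' (by omega) (by omega), fun l hl => ?_⟩
        obtain ⟨a1, a2, a3, a4⟩ := hf' l (by omega)
        exact ⟨mem_insert_of_mem a1, fun _ _ => ⟨a2, a3, a4 z2 h2 h2n⟩,
          fun _ h => absurd hjI h, fun h => absurd hjJ h⟩
      · by_cases hex : ∃ y ∈ J, y ∉ I ∧ y ≠ j.val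
        · obtain ⟨f, hf, hf'⟩ := low_chain E hk J (J.erase j.val) j.2
            ((erase_subset _ _).trans hJ)
            (mem_F0.2 (Or.inr (Or.inl ⟨j.val, hjJ, Or.inr rfl⟩)))
          refine ⟨f, fun l l' hl hl' => hf l l' (by omega) (by omega), fun l hl => ?_⟩
          obtain ⟨a1, a2, a3, a4⟩ := hf' l (by omega)
          have a5 : ∀ y ∈ J, y ≠ j.val → In (f l) y := fun y hy hy' =>
            (a2 y (mem_range.1 (hJ hy))).2 (mem_erase.2 ⟨hy', hy⟩)
          refine ⟨mem_insert_of_mem a1, fun _ h => absurd h hjI,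
            fun _ _ => ⟨a5, ?_, fun _ _ _ _ h => ?_, a3, a4 z1 h1, a4 z2 h2⟩,
            fun h => absurd hjJ h⟩
          · obtain ⟨y, hy1, hy2, hy3⟩ := hex
            exact ⟨y, hy1, hy2, a5 y hy1 hy3⟩
          · exact (mem_erase.1 ((a2 _ j.2).1 h)).1 rfl
        · obtain ⟨f, hf, hf'⟩ := low_chain E hk J J j.2 hJ (mem_F0.2 (Or.inr (Or.inr rfl)))
          refine ⟨f, fun l l' hl hl' => hf l l' (by omega) (by omega), fun l hl => ?_⟩
          obtain ⟨a1, a2, a3, a4⟩ := hf' l (by omega)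
          have a5 : ∀ y ∈ J, In (f l) y := fun y hy => (a2 y (mem_range.1 (hJ hy))).2 hy
          exact ⟨mem_insert_of_mem a1, fun _ h => absurd h hjI,
            fun _ _ => ⟨fun y hy _ => a5 y hy, ⟨_, hjJ, hjI, a5 _ hjJ⟩,
              fun y b1 b2 b3 _ => hex ⟨y, b1, b2, b3⟩, a3, a4 z1 h1, a4 z2 h2⟩,
            fun h => absurd hjJ h⟩
    · have hlt := hsh j hj hjJ
      refine ⟨fun l => hh n m k e I ε (j.val + 1) l, chain_iff _ _ (fun l l' hll hl' =>
        hh_lt E hI j.2 (by omega) ε hll), fun l hl => ?_⟩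
      have hl' : l + 1 < k := by omega
      refine ⟨mem_insert_of_mem (mem_F0.2 (Or.inl ⟨l, hl', hh_cmp E hI j.2 hl' ε⟩)),
        fun h => absurd h hjJ, fun h => absurd h hjJ, fun _ => ⟨hh_low E hI j.2 hl' ε, Or.inr
          ⟨hh_big E hI j.2 hl' ε, hh_small E hI j.2 hl' ε, fun _ => ⟨fun h =>
            (hh_z E hI j.2 hl' ε z2 h2 h2n).2 h, fun h h3 => ?_⟩⟩⟩⟩
      have := (hh_z E hI j.2 hl' ε z1 h1 h1G.1).1 h3
      rw [h] at this
      simp at this
  choose f hf hf' using key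
  refine hasCopy_of (fun p => f p.1 p.2.val) (fun p => (hf' p.1 _ p.2.2).1) ?_
  rintro ⟨j, a⟩ ⟨j', a'⟩
  rw [sigma_le]
  by_cases hjj : j = j'
  · subst hjj
    simp only [true_and]
    exact hf j _ _ a.2 a'.2
  refine ⟨fun h => absurd h.1 hjj, fun hs => False.elim ?_⟩
  simp only at hs
  have hne : j.val ≠ j'.val := fun h => hjj (Fin.ext h)
  obtain ⟨-, u, l, s⟩ := hf' j a a.2
  obtain ⟨-, u', l', s'⟩ := hf' j' a' a'.2
  have hsub := sub_iff.1 hs
  have hbs := fun h h' => big_small hd (hβ j) (X := f j a) (X' := f j' a') (e := e) h h'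
    (hβne j j' hjj) hs
  by_cases hJ' : j'.val ∈ J
  · by_cases hI' : j'.val ∈ I
    · refine ((u' hJ' hI').1 _ j'.2).1 (hsub _ ?_) rfl
      by_cases hJ1 : j.val ∈ J
      · by_cases hI1 : j.val ∈ I
        · exact ((u hJ1 hI1).1 _ j'.2).2 hne.symm
        · exact (l hJ1 hI1).1 _ hJ' hne.symm
      · exact ((s hJ1).1 _ j'.2).2 hI'
    · obtain ⟨-, -, b3, b4, b5, b6⟩ := l' hJ' hI'
      by_cases hJ1 : j.val ∈ J
      · by_cases hI1 : j.val ∈ I
        · exact b6 (hsub _ (u hJ1 hI1).2.2)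
        · exact b3 _ hJ1 hI1 hne (hsub _ ((l hJ1 hI1).1 _ hJ' hne.symm))
      · rcases (s hJ1).2 with ⟨-, h⟩ | ⟨h, -, -⟩
        · exact b5 (hsub _ (h ▸ h1G))
        · exact hbs h b4
  · obtain ⟨c1, c2⟩ := s' hJ'
    by_cases hJ1 : j.val ∈ J
    · by_cases hI1 : j.val ∈ I
      · obtain ⟨-, b2, b3⟩ := u hJ1 hI1
        rcases c2 with ⟨-, h⟩ | ⟨-, h, -⟩
        · exact h2G (h ▸ hsub _ b3)
        · exact hbs b2 h
      · obtain ⟨-, ⟨y, y1, y2, y3⟩, -⟩ := l hJ1 hI1
        exact y2 ((c1 y (mem_range.1 (hJ y1))).1 (hsub _ y3))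
    · rcases (s hJ1).2 with ⟨d1, d2⟩ | ⟨d1, -, d3⟩ <;> rcases c2 with ⟨c2, c3⟩ | ⟨-, c3, c4⟩
      · exact hjj (d1.trans c2.symm)
      · have hj' : j' ≠ j1 := fun h => hjj (d1.trans h.symm)
        cases hε : ε
        · exact (c4 hj').2 hε (hsub _ (d2 ▸ h1G))
        · refine hbs ?_ c3
          rw [d2, show β j = 0 by simp [β, d1]]
          exact hε1 hε
      · have hj : j ≠ j1 := fun h => hjj (h.trans c2.symm)
        cases hε : ε
        · refine hbs d1 ?_
          rw [c3, show β j' = 0 by simp [β, c2]]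
          exact hε2 hε
        · exact h2G (c3 ▸ hsub _ ((d3 hj).1 hε))
      · exact hbs d1 c3

theorem card_bound {n r : ℕ} (F : Finset (Finset (Fin n)))
    (h : ∀ G ∈ F, ∀ z1 z2, r ≤ z1 → In G z1 → r ≤ z2 → z2 < n → In G z2) :
    F.card ≤ 2 ^ r * 2 := by
  classical
  have hsub : F ⊆ ((range r).powerset ×ˢ (univ : Finset Bool)).image
      fun p : Finset ℕ × Bool => Ns n r p.2 p.1 := by
    intro G hG
    refine mem_image.2 ⟨((range r).filter fun y => In G y, decide (∃ z, r ≤ z ∧ In G z)), ?_, ?_⟩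
    · exact mem_product.2 ⟨mem_powerset.2 (filter_subset _ _), mem_univ _⟩
    · ext y
      rw [Ns, mem_mk]
      simp only [mem_filter, mem_range, decide_eq_true_eq]
      constructor
      · rintro (⟨_, _, h1⟩ | ⟨⟨z, h1, h2⟩, h3⟩)
        · exact h1
        · exact (h G hG z y h1 h2 h3 y.2).2
      · intro hy
        by_cases h1 : y.val < r
        · exact Or.inl ⟨h1, y.2, hy⟩
        · exact Or.inr ⟨⟨y, by omega, y.2, hy⟩, by omega⟩
  exact (card_le_card hsub).trans (card_image_le.trans (by simp))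

theorem result (m : ℕ) (i : Fin m → ℕ) (hi : ∀ j, 1 ≤ i j) (hne : ∃ j j', i j < i j') :
    ∃ C : ℕ, ∀ n : ℕ, ∃ F : Finset (Finset (Fin n)),
      Saturated (Σ j : Fin m, Fin (i j)) F ∧ F.card ≤ C := by
  classical
  obtain ⟨j0, j2, h02⟩ := hne
  obtain ⟨j1, -, hj1⟩ := exists_max_image univ i ⟨j0, mem_univ _⟩
  have hik : ∀ j, i j ≤ i j1 := fun j => hj1 j (mem_univ _)
  set k := i j1 with hk
  have hk0 : i j0 < k := lt_of_lt_of_le h02 (hik j2)
  have hk2 : 2 ≤ k := by have := hi j0; omega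
  set M : Finset (Fin m) := univ.filter fun j => i j = k with hM
  set J : Finset ℕ := (M.erase j1).image Fin.val with hJ
  have hmemJ : ∀ j : Fin m, j.val ∈ J ↔ j ≠ j1 ∧ i j = k := by
    intro j
    rw [hJ, mem_image]
    constructor
    · rintro ⟨j', h1, h2⟩
      obtain rfl : j' = j := Fin.ext h2
      simpa [hM] using h1
    · intro h
      exact ⟨j, by simpa [hM] using h, rfl⟩
  have hJc : J.card < M.card :=
    lt_of_le_of_lt card_image_le (card_erase_lt_of_mem (by simp [hM, hk]))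
  have hJr : J ⊆ range m := by
    intro y hy
    obtain ⟨j, -, rfl⟩ := mem_image.1 hy
    exact mem_range.2 j.2
  set r := m + (m + 1) * (m + k) with hr
  refine ⟨2 ^ r * 2, fun n => ?_⟩
  by_cases hnr : r < n
  · obtain ⟨F, hF, hsat⟩ := exists_sat (Σ j : Fin m, Fin (i j)) (F0 n r (m + 2) k J)
      (F0_free hnr J i M (fun j hj => (mem_filter.1 hj).2) (by omega) hJc j0
        (fun h => by have := (mem_filter.1 h).2; omega) (hi j0))
    refine ⟨F, hsat, card_bound F fun G hG z1 z2 h1 h1G h2 h2n => ?_⟩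
    by_contra h2G
    refine hsat.1 ((F0_sat hk2 hnr i j1 J hJr (fun h => ((hmemJ j1).1 h).1 rfl) hik
      (fun j a b => lt_of_le_of_ne (hik j) fun c => b ((hmemJ j).2 ⟨a, c⟩)) G h1 h1G h2 h2n
      h2G).mono ?_)
    exact insert_subset hG hF
  · obtain ⟨F, -, hsat⟩ := exists_sat (Σ j : Fin m, Fin (i j)) (∅ : Finset (Finset (Fin n)))
      (by rintro ⟨b, -, h, -⟩; exact notMem_empty _ (h ⟨j0, ⟨0, hi j0⟩⟩))
    refine ⟨F, hsat, ?_⟩
    have h1 : F.card ≤ 2 ^ n := by
      have := card_le_univ F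
      simpa using this
    have h2 : 2 ^ n ≤ 2 ^ r := Nat.pow_le_pow_right (by norm_num) (by omega)
    exact (h1.trans h2).trans (Nat.le_mul_of_pos_right _ (by norm_num))

end Pool.Agent.Results.MP_80cf42_co.Bounded
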